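import Pool.Agent.Lib.MP_688fd0_co.SQ5.H59.Peel
import Pool.Agent.Lib.MP_688fd0_co.SQ5.H23.C2

/-!
DEGEN (C2, FAR-3): three involutions `t₁, t₂, d` which generate the finite group `G`, `eps = -1` on them; if `(t₁ d)^2` and
`(t₂ d)^2` commute with `ker eps` then `{t₁, t₂, d}` has a listing sequence.  `x = t₁ d`, `y = t₂ d`,
`AA = ⟨x^2, y^2, x y⟩` is abelian, the cosets of `H = ⟨t₂, d⟩` are those of `AA ∩ H` in `AA`, and from each of them both
steps `x⁻¹ y`, `y x⁻¹` are available.
-/

set_option autoImplicit false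

namespace Pool.Agent.Lib.MP_688fd0_co.SQ5.H59

open Pool.Agent.Lib.MP_688fd0_co.OSF Pool.Agent.Lib.MP_688fd0_co.NC Pool.Agent.Lib.MP_688fd0_co.SQ5

universe u

section dihedral

variable {G : Type u} [Group G] {A : Set G} {eps : G →* ℤˣ} {p q : G}

theorem dih_mem (hp : p * p = 1) (hq : q * q = 1) {g : G} (hg : g ∈ Subgroup.closure {p, q}) :
    ∃ i : ℤ, g = (q * p) ^ i ∨ g = (q * p) ^ i * q := by
  have hpi : p⁻¹ = p := inv_eq_of_mul_eq_one_right hp
  have hqi : q⁻¹ = q := inv_eq_of_mul_eq_one_right hq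
  have stepq : ∀ y : G, (∃ i : ℤ, y = (q * p) ^ i ∨ y = (q * p) ^ i * q) →
      ∃ i : ℤ, y * q = (q * p) ^ i ∨ y * q = (q * p) ^ i * q := by
    rintro y ⟨i, h | h⟩
    · exact ⟨i, Or.inr (by rw [h])⟩
    · exact ⟨i, Or.inl (by rw [h, mul_assoc, hq, mul_one])⟩
  have stepp : ∀ y : G, (∃ i : ℤ, y = (q * p) ^ i ∨ y = (q * p) ^ i * q) →
      ∃ i : ℤ, y * p = (q * p) ^ i ∨ y * p = (q * p) ^ i * q := by
    rintro y ⟨i, h | h⟩
    · refine ⟨i - 1, Or.inr ?_⟩
      rw [h, zpow_sub_one, mul_inv_rev, hpi, hqi, mul_assoc, mul_assoc, hq, mul_one]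
    · refine ⟨i + 1, Or.inl ?_⟩
      rw [h, zpow_add_one, mul_assoc]
  induction hg using Subgroup.closure_induction_right with
  | one => exact ⟨0, Or.inl (by simp)⟩
  | mul_right y _ a ha ih =>
    rcases ha with rfl | ha
    · exact stepp y ih
    · rw [Set.mem_singleton_iff] at ha
      subst ha
      exact stepq y ih
  | mul_inv_cancel y _ a ha ih =>
    rcases ha with rfl | ha
    · rw [hpi]
      exact stepp y ih
    · rw [Set.mem_singleton_iff] at ha
      subst ha
      rw [hqi]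
      exact stepq y ih

/-- The dihedral group `⟨p, q⟩` has a Hamiltonian path from `1` to `p`. -/
theorem seq_dih [Finite G] (hp : p * p = 1) (hq : q * q = 1) (ep : eps p = -1) (eq : eps q = -1)
    (hpA : p ∈ A) (hqA : q ∈ A) : ∃ E v, Seq A (Subgroup.closure {p, q}) E v ∧ v E = p := by
  have hpi : p⁻¹ = p := inv_eq_of_mul_eq_one_right hp
  have hqi : q⁻¹ = q := inv_eq_of_mul_eq_one_right hq
  have hpm : p ∈ Subgroup.closure {p, q} := Subgroup.subset_closure (Or.inl rfl)
  have hqm : q ∈ Subgroup.closure {p, q} := Subgroup.subset_closure (Or.inr rfl)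
  have hrm : q * p ∈ Subgroup.closure {p, q} := mul_mem hqm hpm
  set r := q * p with hr
  have er : eps r = 1 := by rw [hr, map_mul, ep, eq]; decide
  set n := orderOf r with hn
  have hn0 : 0 < n := orderOf_pos r
  let v : ℕ → G := fun k => r ^ (k / 2) * (if k % 2 = 1 then q else 1)
  have hv0 : ∀ i, v (2 * i) = r ^ i := by
    intro i
    have h1 : 2 * i / 2 = i := by omega
    have h2 : ¬ (2 * i % 2 = 1) := by omega
    simp only [v]
    rw [h1, if_neg h2, mul_one]
  have hv1 : ∀ i, v (2 * i + 1) = r ^ i * q := by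
    intro i
    have h1 : (2 * i + 1) / 2 = i := by omega
    have h2 : (2 * i + 1) % 2 = 1 := by omega
    simp only [v]
    rw [h1, if_pos h2]
  have e0 : ∀ i, eps (v (2 * i)) = 1 := fun i => by rw [hv0, map_pow, er, one_pow]
  have e1 : ∀ i, eps (v (2 * i + 1)) = -1 := fun i => by rw [hv1, map_mul, map_pow, er, one_pow, eq]; decide
  have par : ∀ k : ℕ, ∃ i, k = 2 * i ∨ k = 2 * i + 1 := fun k => ⟨k / 2, by omega⟩
  have hne : (1 : ℤˣ) ≠ -1 := by decide
  refine ⟨2 * n - 1, v, ⟨?_, ?_, ?_, ?_, ?_⟩, ?_⟩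
  · intro k _
    obtain ⟨i, rfl | rfl⟩ := par k
    · rw [hv0]; exact pow_mem hrm i
    · rw [hv1]; exact mul_mem (pow_mem hrm i) hqm
  · intro k hk l hl h
    obtain ⟨i, rfl | rfl⟩ := par k <;> obtain ⟨j, rfl | rfl⟩ := par l
    · rw [hv0, hv0] at h
      have := pow_injOn_Iio_orderOf (Set.mem_Iio.2 (by omega : i < orderOf r))
        (Set.mem_Iio.2 (by omega : j < orderOf r)) h
      omega
    · exact absurd ((e0 i).symm.trans ((congrArg eps h).trans (e1 j))) hne
    · exact absurd ((e0 j).symm.trans ((congrArg eps h.symm).trans (e1 i))) hne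
    · rw [hv1, hv1] at h
      have := pow_injOn_Iio_orderOf (Set.mem_Iio.2 (by omega : i < orderOf r))
        (Set.mem_Iio.2 (by omega : j < orderOf r)) (mul_right_cancel h)
      omega
  · intro g hg
    obtain ⟨i, hi⟩ := dih_mem hp hq hg
    rw [← hr] at hi
    have hz : r ^ i = r ^ (i % (n : ℤ)).toNat := by
      have h1 : ((i % (n : ℤ)).toNat : ℤ) = i % (n : ℤ) := Int.toNat_of_nonneg (Int.emod_nonneg _ (by omega))
      rw [← zpow_natCast, h1, hn, zpow_mod_orderOf]
    have hlt : (i % (n : ℤ)).toNat < n := by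
      have h1 := Int.emod_lt_of_pos i (by omega : (0 : ℤ) < n)
      have h2 := Int.emod_nonneg i (by omega : (n : ℤ) ≠ 0)
      omega
    rcases hi with hi | hi
    · exact ⟨2 * (i % (n : ℤ)).toNat, by omega, by rw [hv0, hi, hz]⟩
    · exact ⟨2 * (i % (n : ℤ)).toNat + 1, by omega, by rw [hv1, hi, hz]⟩
  · intro k _
    obtain ⟨i, rfl | rfl⟩ := par k
    · rw [hv0, hv1, inv_mul_cancel_left]
      exact hqA
    · have e : 2 * i + 1 + 1 = 2 * (i + 1) := by ring
      rw [e, hv0, hv1, pow_succ, mul_inv_rev, mul_assoc, inv_mul_cancel_left, hr, hqi, ← mul_assoc, hq, one_mul]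
      exact hpA
  · have := hv0 0
    rwa [mul_zero, pow_zero] at this
  · have e : 2 * n - 1 = 2 * (n - 1) + 1 := by omega
    rw [e, hv1]
    have h1 : r ^ (n - 1) * r = 1 := by rw [← pow_succ, Nat.sub_add_cancel hn0, hn, pow_orderOf_eq_one]
    have h2 : r ^ (n - 1) = r⁻¹ := eq_inv_of_mul_eq_one_left h1
    rw [h2, hr, mul_inv_rev, hpi, hqi, mul_assoc, hq, mul_one]

end dihedral

section degen

variable {G : Type u} [Group G] {eps : G →* ℤˣ} {t₁ t₂ d : G}

/-- Two central squares. -/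
theorem degen [Finite G] (h1 : t₁ * t₁ = 1) (h2 : t₂ * t₂ = 1) (hd : d * d = 1) (e1 : eps t₁ = -1) (e2 : eps t₂ = -1)
    (ed : eps d = -1) (hgen : Subgroup.closure {t₁, t₂, d} = ⊤)
    (hx : ∀ g, eps g = 1 → g * ((t₁ * d) * (t₁ * d)) = ((t₁ * d) * (t₁ * d)) * g)
    (hy : ∀ g, eps g = 1 → g * ((t₂ * d) * (t₂ * d)) = ((t₂ * d) * (t₂ * d)) * g) :
    Lst ({t₁, t₂, d} : Set G) := by
  classical
  have i1 : t₁⁻¹ = t₁ := inv_eq_of_mul_eq_one_right h1
  have i2 : t₂⁻¹ = t₂ := inv_eq_of_mul_eq_one_right h2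
  have id' : d⁻¹ = d := inv_eq_of_mul_eq_one_right hd
  set A : Set G := {t₁, t₂, d} with hA
  have m1 : t₁ ∈ A := Or.inl rfl
  have m2 : t₂ ∈ A := Or.inr (Or.inl rfl)
  have md : d ∈ A := Or.inr (Or.inr rfl)
  set H : Subgroup G := Subgroup.closure {t₂, d} with hH
  have hH2 : t₂ ∈ H := Subgroup.subset_closure (Or.inl rfl)
  have hHd : d ∈ H := Subgroup.subset_closure (Or.inr rfl)
  obtain ⟨E, v, S, hvE⟩ := seq_dih (A := A) h2 hd e2 ed m2 md
  have hH' : Subgroup.closure {d, t₂} = H := by rw [hH, Set.pair_comm]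
  obtain ⟨E', v', S', hvE'⟩ := seq_dih (A := A) hd h2 ed e2 md m2
  rw [hH'] at S'
  set x := t₁ * d with hxd
  set y := t₂ * d with hyd
  have ex : eps x = 1 := by rw [hxd, map_mul, e1, ed]; decide
  have ey : eps y = 1 := by rw [hyd, map_mul, e2, ed]; decide
  have hyH : y ∈ H := mul_mem hH2 hHd
  have xi : x⁻¹ = d * t₁ := by rw [hxd, mul_inv_rev, i1, id']
  have yi : y⁻¹ = d * t₂ := by rw [hyd, mul_inv_rev, i2, id']
  -- `AA`
  let gens : Set G := {x * x, y * y, x * y}
  have gxx : x * x ∈ gens := Or.inl rfl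
  have gyy : y * y ∈ gens := Or.inr (Or.inl rfl)
  have gxy : x * y ∈ gens := Or.inr (Or.inr rfl)
  have exx : eps (x * x) = 1 := by rw [map_mul, ex, one_mul]
  have eyy : eps (y * y) = 1 := by rw [map_mul, ey, one_mul]
  have exy : eps (x * y) = 1 := by rw [map_mul, ex, ey, one_mul]
  have hcomm : ∀ a ∈ gens, ∀ b ∈ gens, a * b = b * a := by
    have egens : ∀ a ∈ gens, eps a = 1 := by
      rintro a (rfl | rfl | ha)
      · exact exx
      · exact eyy
      · rw [Set.mem_singleton_iff] at ha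
        rw [ha]; exact exy
    intro a ha b hb
    rcases ha with rfl | rfl | ha
    · exact (hx b (egens b hb)).symm
    · exact (hy b (egens b hb)).symm
    · rw [Set.mem_singleton_iff] at ha
      subst ha
      rcases hb with rfl | rfl | hb
      · exact hx _ exy
      · exact hy _ exy
      · rw [Set.mem_singleton_iff] at hb
        rw [hb]
  let AA : Subgroup G := Subgroup.closure gens
  letI cAA : CommGroup AA := Subgroup.closureCommGroupOfComm hcomm
  have axx : x * x ∈ AA := Subgroup.subset_closure gxx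
  have ayy : y * y ∈ AA := Subgroup.subset_closure gyy
  have axy : x * y ∈ AA := Subgroup.subset_closure gxy
  have eAA : ∀ g ∈ AA, eps g = 1 := by
    intro g hg
    have h3 : AA ≤ eps.ker := by
      refine (Subgroup.closure_le _).2 ?_
      rintro a (rfl | rfl | ha)
      · exact exx
      · exact eyy
      · rw [Set.mem_singleton_iff] at ha
        rw [ha]; exact exy
    exact h3 hg
  have aα : x⁻¹ * y ∈ AA := by
    have h3 := mul_mem (inv_mem axx) axy
    have e : (x * x)⁻¹ * (x * y) = x⁻¹ * y := by group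
    rwa [e] at h3
  have aβ' : x * y⁻¹ ∈ AA := by
    have h3 := mul_mem axy (inv_mem ayy)
    have e : x * y * (y * y)⁻¹ = x * y⁻¹ := by group
    rwa [e] at h3
  have aβ : y * x⁻¹ ∈ AA := by
    have h3 := inv_mem aβ'
    have e : (x * y⁻¹)⁻¹ = y * x⁻¹ := by group
    rwa [e] at h3
  -- every element of the kernel is in `AA ∪ AA y⁻¹`
  have good : ∀ g : G, (eps g = 1 → g ∈ AA ∨ g * y ∈ AA) ∧ (eps g = -1 → g * d ∈ AA ∨ g * d * y ∈ AA) := by
    have gx : ∀ g : G, (g ∈ AA ∨ g * y ∈ AA) → (g * x ∈ AA ∨ g * x * y ∈ AA) := by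
      rintro g (h | h)
      · right
        have := mul_mem h axy
        rwa [← mul_assoc] at this
      · left
        have := mul_mem h (inv_mem aα)
        have e : g * y * (x⁻¹ * y)⁻¹ = g * x := by group
        rwa [e] at this
    have gy : ∀ g : G, (g ∈ AA ∨ g * y ∈ AA) → (g * y ∈ AA ∨ g * y * y ∈ AA) := by
      rintro g (h | h)
      · right
        have := mul_mem h ayy
        rwa [← mul_assoc] at this
      · left; exact h
    have gxi : ∀ g : G, (g ∈ AA ∨ g * y ∈ AA) → (g * x⁻¹ ∈ AA ∨ g * x⁻¹ * y ∈ AA) := by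
      rintro g (h | h)
      · right
        have := mul_mem h aα
        rwa [← mul_assoc] at this
      · left
        have := mul_mem h (inv_mem axy)
        have e : g * y * (x * y)⁻¹ = g * x⁻¹ := by group
        have e' : g * y * (x * y)⁻¹ = g * y * (y⁻¹ * x⁻¹) := by group
        rw [e'] at this
        have e'' : g * y * (y⁻¹ * x⁻¹) = g * x⁻¹ := by group
        rwa [e''] at this
    have gyi : ∀ g : G, (g ∈ AA ∨ g * y ∈ AA) → (g * y⁻¹ ∈ AA ∨ g * y⁻¹ * y ∈ AA) := by
      rintro g (h | h)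
      · right
        rwa [inv_mul_cancel_right]
      · left
        have := mul_mem h (inv_mem ayy)
        have e : g * y * (y * y)⁻¹ = g * y⁻¹ := by group
        rwa [e] at this
    intro g
    have hg : g ∈ Subgroup.closure A := by rw [hgen]; trivial
    have step : ∀ g s : G, s ∈ A →
        ((eps g = 1 → g ∈ AA ∨ g * y ∈ AA) ∧ (eps g = -1 → g * d ∈ AA ∨ g * d * y ∈ AA)) →
        ((eps (g * s) = 1 → g * s ∈ AA ∨ g * s * y ∈ AA) ∧
          (eps (g * s) = -1 → g * s * d ∈ AA ∨ g * s * d * y ∈ AA)) := by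
      intro g s hs h
      have es : eps s = -1 := by
        rcases hs with rfl | rfl | hs
        · exact e1
        · exact e2
        · rw [Set.mem_singleton_iff] at hs
          rw [hs]; exact ed
      have egs : eps (g * s) = - eps g := by rw [map_mul, es, mul_neg, mul_one]
      constructor
      · intro he
        rw [egs] at he
        have h3 := h.2 (neg_eq_iff_eq_neg.1 he)
        rcases hs with rfl | rfl | hs
        · have e : g * s = g * d * x⁻¹ := by rw [xi, mul_assoc, ← mul_assoc d d, hd, one_mul]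
          rw [e]
          exact gxi _ h3
        · have e : g * s = g * d * y⁻¹ := by rw [yi, mul_assoc, ← mul_assoc d d, hd, one_mul]
          rw [e]
          exact gyi _ h3
        · rw [Set.mem_singleton_iff] at hs
          rw [hs]; exact h3
      · intro he
        rw [egs] at he
        have h3 := h.1 (neg_injective he)
        rcases hs with rfl | rfl | hs
        · have e : g * s * d = g * x := by rw [hxd, mul_assoc]
          rw [e]
          exact gx _ h3
        · have e : g * s * d = g * y := by rw [hyd, mul_assoc]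
          rw [e]
          exact gy _ h3
        · rw [Set.mem_singleton_iff] at hs
          rw [hs, mul_assoc g d d, hd, mul_one]
          exact h3
    have hinv : ∀ s ∈ A, s⁻¹ ∈ A := by
      rintro s (rfl | rfl | hs)
      · rw [i1]; exact m1
      · rw [i2]; exact m2
      · rw [Set.mem_singleton_iff] at hs
        rw [hs, id']; exact md
    induction hg using Subgroup.closure_induction_right with
    | one =>
      refine ⟨fun _ => Or.inl (one_mem _), fun h => ?_⟩
      rw [map_one] at h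
      exact absurd h (by decide)
    | mul_right g _ s hs ih => exact step g s hs ih
    | mul_inv_cancel g _ s hs ih => exact step g s⁻¹ (hinv s hs) ih
  -- the abelian quotient
  let K : Subgroup AA := H.subgroupOf AA
  haveI hKn : K.Normal := ⟨fun h hh g => by
    have e : g * h * g⁻¹ = h := by rw [mul_comm g h, mul_inv_cancel_right]
    rw [e]; exact hh⟩
  letI : CommGroup (AA ⧸ K) := QuotientGroup.Quotient.commGroup K
  have mk_eq : ∀ {a b : AA}, ((a : AA ⧸ K) = (b : AA ⧸ K)) ↔ (a : G)⁻¹ * (b : G) ∈ H := by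
    intro a b
    rw [QuotientGroup.eq]
    exact Subgroup.mem_subgroupOf
  let α : AA := ⟨x⁻¹ * y, aα⟩
  let β : AA := ⟨y * x⁻¹, aβ⟩
  let X : Set (AA ⧸ K) := {(α : AA ⧸ K), (β : AA ⧸ K)}
  obtain ⟨n, w, SZ⟩ := seq_abelian X
  -- the steps generate
  have htop : ∀ z : AA ⧸ K, z ∈ Subgroup.closure X := by
    have hαX : (α : AA ⧸ K) ∈ Subgroup.closure X := Subgroup.subset_closure (Or.inl rfl)
    have hβX : (β : AA ⧸ K) ∈ Subgroup.closure X := Subgroup.subset_closure (Or.inr rfl)
    let Δ : Subgroup G := ((Subgroup.closure X).comap (QuotientGroup.mk' K)).map AA.subtype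
    have memΔ : ∀ g : G, g ∈ Δ ↔ ∃ h : g ∈ AA, ((⟨g, h⟩ : AA) : AA ⧸ K) ∈ Subgroup.closure X := by
      intro g
      constructor
      · rintro ⟨z, hz, rfl⟩
        exact ⟨z.2, hz⟩
      · rintro ⟨h, hg⟩
        exact ⟨⟨g, h⟩, hg, rfl⟩
    have hyyΔ : y * y ∈ Δ := by
      refine (memΔ _).2 ⟨ayy, ?_⟩
      have h3 : ((⟨y * y, ayy⟩ : AA) : AA ⧸ K) = ((1 : AA) : AA ⧸ K) := by
        rw [mk_eq]
        show (y * y)⁻¹ * ((1 : AA) : G) ∈ H
        rw [Subgroup.coe_one, mul_one]
        exact inv_mem (mul_mem hyH hyH)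
      rw [h3]
      exact Subgroup.one_mem _
    have hαΔ : x⁻¹ * y ∈ Δ := (memΔ _).2 ⟨aα, hαX⟩
    have hβΔ : y * x⁻¹ ∈ Δ := (memΔ _).2 ⟨aβ, hβX⟩
    have hxyΔ : x * y ∈ Δ := by
      have h3 := mul_mem (inv_mem hβΔ) hyyΔ
      have e : (y * x⁻¹)⁻¹ * (y * y) = x * y := by group
      rwa [e] at h3
    have hxxΔ : x * x ∈ Δ := by
      have h3 := mul_mem hxyΔ (inv_mem hαΔ)
      have e : x * y * (x⁻¹ * y)⁻¹ = x * x := by group
      rwa [e] at h3
    have hle : AA ≤ Δ := by
      refine (Subgroup.closure_le _).2 ?_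
      rintro a (rfl | rfl | ha)
      · exact hxxΔ
      · exact hyyΔ
      · rw [Set.mem_singleton_iff] at ha
        rw [ha]; exact hxyΔ
    intro z
    induction z using QuotientGroup.induction_on with
    | H g =>
      obtain ⟨h, hg⟩ := (memΔ g).1 (hle g.2)
      exact hg
  -- the cosets
  let C : AA ⧸ K → Set G := fun z => {g | ∃ a : AA, (a : AA ⧸ K) = z ∧ (a : G)⁻¹ * g ∈ H}
  have hCx : ∀ a : AA, C (a : AA ⧸ K) = {g : G | (a : G)⁻¹ * g ∈ H} := by
    intro a
    ext g
    constructor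
    · rintro ⟨a', ha', hg⟩
      have h3 := H.mul_mem (mk_eq.1 ha'.symm) hg
      show (a : G)⁻¹ * g ∈ H
      rwa [mul_assoc, mul_inv_cancel_left] at h3
    · intro hg
      exact ⟨a, rfl, hg⟩
  have hCd : ∀ z z' g, g ∈ C z → g ∈ C z' → z = z' := by
    rintro z z' g ⟨a, rfl, ha⟩ ⟨a', rfl, ha'⟩
    rw [mk_eq]
    have h3 := H.mul_mem ha (H.inv_mem ha')
    have e : (a : G)⁻¹ * g * ((a' : G)⁻¹ * g)⁻¹ = (a : G)⁻¹ * a' := by group
    rwa [e] at h3
  -- type of an entry
  let Ty : G → AA ⧸ K → Prop := fun g z => (∃ h : g ∈ AA, ((⟨g, h⟩ : AA) : AA ⧸ K) = z) ∨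
    (∃ h : g * y ∈ AA, ((⟨g * y, h⟩ : AA) : AA ⧸ K) = z)
  have hTyC : ∀ g z, Ty g z → C z = {h : G | g⁻¹ * h ∈ H} := by
    rintro g z (⟨h, rfl⟩ | ⟨h, rfl⟩)
    · exact hCx _
    · rw [hCx]
      ext k
      show (g * y)⁻¹ * k ∈ H ↔ g⁻¹ * k ∈ H
      have e : (g * y)⁻¹ * k = y⁻¹ * (g⁻¹ * k) := by group
      rw [e]
      exact Subgroup.mul_mem_cancel_left _ (inv_mem hyH)
  -- both directions through a coset
  have hthru : ∀ g z, Ty g z → Pt A (C z) g (g * t₂) ∧ Pt A (C z) g (g * d) := by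
    intro g z hg
    have h3 := list_coset S g
    have h4 := list_coset S' g
    rw [hvE, ← hTyC g z hg] at h3
    rw [hvE', ← hTyC g z hg] at h4
    exact ⟨h3, h4⟩
  -- one step
  have hstep : ∀ g z s, Ty g z → s ∈ X → ∃ g', Ty g' (z * s) ∧
      ((g * t₂)⁻¹ * g' ∈ A ∨ (g * d)⁻¹ * g' ∈ A) := by
    have ed1 : ∀ g, (g * d)⁻¹ * (g * x⁻¹) ∈ A := by
      intro g
      have e : (g * d)⁻¹ * (g * x⁻¹) = t₁ := by
        rw [xi, mul_inv_rev, id', mul_assoc, inv_mul_cancel_left, ← mul_assoc, hd, one_mul]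
      rw [e]; exact m1
    have ed2 : ∀ g, (g * t₂)⁻¹ * (g * (y * x⁻¹)) ∈ A := by
      intro g
      have e0 : y * x⁻¹ = t₂ * t₁ := by rw [xi, hyd, mul_assoc, ← mul_assoc d d, hd, one_mul]
      have e : (g * t₂)⁻¹ * (g * (y * x⁻¹)) = t₁ := by
        rw [e0, mul_inv_rev, i2, mul_assoc, inv_mul_cancel_left, ← mul_assoc, h2, one_mul]
      rw [e]; exact m1
    rintro g z s (⟨h, rfl⟩ | ⟨h, rfl⟩) hs
    · rcases hs with rfl | hs
      · -- type 0, step α
        refine ⟨g * x⁻¹, Or.inr ?_, Or.inr (ed1 g)⟩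
        have h3 : g * x⁻¹ * y = g * (x⁻¹ * y) := by group
        have h4 : g * x⁻¹ * y ∈ AA := by rw [h3]; exact mul_mem h aα
        refine ⟨h4, ?_⟩
        rw [← QuotientGroup.mk_mul]
        congr 1
        exact Subtype.ext h3
      · rw [Set.mem_singleton_iff] at hs
        subst hs
        refine ⟨g * (y * x⁻¹), Or.inl ?_, Or.inl (ed2 g)⟩
        exact ⟨mul_mem h aβ, rfl⟩
    · rcases hs with rfl | hs
      · -- type 1, step α
        refine ⟨g * (y * x⁻¹), Or.inr ?_, Or.inl (ed2 g)⟩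
        have h3 : g * (y * x⁻¹) * y = g * y * (x⁻¹ * y) := by group
        have h4 : g * (y * x⁻¹) * y ∈ AA := by rw [h3]; exact mul_mem h aα
        refine ⟨h4, ?_⟩
        rw [← QuotientGroup.mk_mul]
        congr 1
        exact Subtype.ext h3
      · rw [Set.mem_singleton_iff] at hs
        subst hs
        refine ⟨g * x⁻¹, Or.inl ?_, Or.inr (ed1 g)⟩
        have h3 : g * x⁻¹ = g * y * (x * y)⁻¹ := by group
        have h3' : g * x⁻¹ ∈ AA := by
          have h5 := mul_mem h (inv_mem axy)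
          have e : g * y * (x * y)⁻¹ = g * y * (y⁻¹ * x⁻¹) := by rw [mul_inv_rev]
          rw [e] at h5
          have e' : g * y * (y⁻¹ * x⁻¹) = g * x⁻¹ := by group
          rwa [e'] at h5
        refine ⟨h3', ?_⟩
        rw [← QuotientGroup.mk_mul]
        rw [mk_eq]
        show (g * x⁻¹)⁻¹ * (g * y * (y * x⁻¹)) ∈ H
        have e1 : (g * x⁻¹)⁻¹ * (g * y * (y * x⁻¹)) = x * (y * y) * x⁻¹ := by group
        have e2 : x * (y * y) * x⁻¹ = y * y := by rw [hy x ex, mul_inv_cancel_right]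
        rw [e1, e2]
        exact mul_mem hyH hyH
  have hchain : ∀ l ≤ n, ∃ g, Ty g (w l) ∧
      Pt A {h : G | ∃ k ≤ l, h ∈ C (w k)} 1 (g * t₂) ∧ Pt A {h : G | ∃ k ≤ l, h ∈ C (w k)} 1 (g * d) := by
    intro l
    induction l with
    | zero =>
      intro _
      have hT : Ty 1 (w 0) := by
        left
        refine ⟨one_mem _, ?_⟩
        rw [SZ.zero]; rfl
      have hE : C (w 0) = {h : G | ∃ k ≤ 0, h ∈ C (w k)} := by
        ext h
        constructor
        · intro hh
          exact ⟨0, le_rfl, hh⟩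
        · rintro ⟨k, hk, hh⟩
          obtain rfl : k = 0 := by omega
          exact hh
      obtain ⟨p1, p2⟩ := hthru 1 _ hT
      exact ⟨1, hT, p1.congr hE, p2.congr hE⟩
    | succ l ih =>
      intro hl
      obtain ⟨g, hg, hp1, hp2⟩ := ih (by omega)
      have hs := SZ.edge l (by omega)
      obtain ⟨g', hg', he⟩ := hstep g (w l) _ hg hs
      rw [mul_inv_cancel_left] at hg'
      obtain ⟨p1, p2⟩ := hthru g' _ hg'
      have hdis : Disjoint {h : G | ∃ k ≤ l, h ∈ C (w k)} (C (w (l + 1))) := by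
        rw [Set.disjoint_left]
        rintro h ⟨k, hk, h3⟩ h4
        have h5 := SZ.inj k (by omega) (l + 1) hl (hCd _ _ h h3 h4)
        omega
      have hE : {h : G | ∃ k ≤ l, h ∈ C (w k)} ∪ C (w (l + 1)) = {h : G | ∃ k ≤ l + 1, h ∈ C (w k)} := by
        ext h
        constructor
        · rintro (⟨k, hk, h3⟩ | h3)
          · exact ⟨k, by omega, h3⟩
          · exact ⟨l + 1, le_rfl, h3⟩
        · rintro ⟨k, hk, h3⟩
          rcases Nat.lt_or_ge k (l + 1) with h4 | h4
          · exact Or.inl ⟨k, by omega, h3⟩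
          · obtain rfl : k = l + 1 := by omega
            exact Or.inr h3
      refine ⟨g', hg', ?_, ?_⟩
      · rcases he with he | he
        · exact (hp1.append p1 hdis he).congr hE
        · exact (hp2.append p1 hdis he).congr hE
      · rcases he with he | he
        · exact (hp1.append p2 hdis he).congr hE
        · exact (hp2.append p2 hdis he).congr hE
  obtain ⟨g, -, hp, -⟩ := hchain n le_rfl
  refine (hp.congr ?_).lst ⟨t₁, m1⟩
  ext h
  simp only [Set.mem_univ, iff_true]
  -- every element is in a coset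
  have hcov : ∀ k : G, eps k = 1 → ∃ a : AA, (a : G)⁻¹ * k ∈ H := by
    intro k hk
    rcases (good k).1 hk with h3 | h3
    · exact ⟨⟨k, h3⟩, by show k⁻¹ * k ∈ H; rw [inv_mul_cancel]; exact one_mem _⟩
    · refine ⟨⟨k * y, h3⟩, ?_⟩
      show (k * y)⁻¹ * k ∈ H
      have e : (k * y)⁻¹ * k = y⁻¹ := by group
      rw [e]
      exact inv_mem hyH
  have hcov' : ∃ a : AA, (a : G)⁻¹ * h ∈ H := by
    rcases Int.units_eq_one_or (eps h) with he | he
    · exact hcov h he
    · obtain ⟨a, ha⟩ := hcov (h * d) (by rw [map_mul, he, ed]; decide)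
      refine ⟨a, ?_⟩
      have h3 := mul_mem ha hHd
      have e : (a : G)⁻¹ * (h * d) * d = (a : G)⁻¹ * h := by
        rw [mul_assoc, mul_assoc, hd, mul_one]
      rwa [e] at h3
  obtain ⟨a, ha⟩ := hcov'
  obtain ⟨k, hk, h3⟩ := SZ.sur _ (htop (a : AA ⧸ K))
  refine ⟨k, hk, ?_⟩
  rw [h3, hCx]
  exact ha

/-- `s` is not central in `ker eps`. -/
def NCen (eps : G →* ℤˣ) (s : G) : Prop := ∃ g, eps g = 1 ∧ g * s ≠ s * g

/-- Output for FAR-3: a listing sequence, or at least two of the three squares are not central in `ker eps`. -/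
theorem lst_or_two [Finite G] {a t b : G} (ha : a * a = 1) (ht : t * t = 1) (hb : b * b = 1) (ea : eps a = -1)
    (et : eps t = -1) (eb : eps b = -1) (hgen : Subgroup.closure {a, t, b} = ⊤) :
    Lst ({a, t, b} : Set G) ∨
      (NCen eps ((a * b) * (a * b)) ∧ NCen eps ((t * b) * (t * b))) ∨
      (NCen eps ((a * b) * (a * b)) ∧ NCen eps ((a * t) * (a * t))) ∨
      (NCen eps ((t * b) * (t * b)) ∧ NCen eps ((a * t) * (a * t))) := by
  have ia : a⁻¹ = a := inv_eq_of_mul_eq_one_right ha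
  have it : t⁻¹ = t := inv_eq_of_mul_eq_one_right ht
  have ib : b⁻¹ = b := inv_eq_of_mul_eq_one_right hb
  have flip : ∀ p q : G, p⁻¹ = p → q⁻¹ = q → (∀ g, eps g = 1 → g * ((p * q) * (p * q)) = ((p * q) * (p * q)) * g) →
      ∀ g, eps g = 1 → g * ((q * p) * (q * p)) = ((q * p) * (q * p)) * g := by
    intro p q hp hq h g hg
    have e : (q * p) * (q * p) = ((p * q) * (p * q))⁻¹ := by
      rw [mul_inv_rev, mul_inv_rev, hp, hq]
    rw [e]
    have h3 : Commute g ((p * q) * (p * q)) := h g hg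
    exact h3.inv_right
  by_cases c1 : NCen eps ((a * b) * (a * b))
  · by_cases c2 : NCen eps ((t * b) * (t * b))
    · exact Or.inr (Or.inl ⟨c1, c2⟩)
    · by_cases c3 : NCen eps ((a * t) * (a * t))
      · exact Or.inr (Or.inr (Or.inl ⟨c1, c3⟩))
      · -- `(t b)^2`, `(a t)^2` central: `d = t`
        left
        unfold NCen at c2 c3
        push Not at c2 c3
        have h3 := degen (t₁ := b) (t₂ := a) (d := t) (eps := eps) hb ha ht eb ea et
          (by rw [← hgen]; congr 1; ext z; simp only [Set.mem_insert_iff, Set.mem_singleton_iff]; tauto)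
          (flip t b it ib c2) c3
        refine mono ?_ h3
        rintro z (rfl | rfl | hz)
        · exact Or.inr (Or.inr rfl)
        · exact Or.inl rfl
        · exact Or.inr (Or.inl hz)
  · by_cases c2 : NCen eps ((t * b) * (t * b))
    · by_cases c3 : NCen eps ((a * t) * (a * t))
      · exact Or.inr (Or.inr (Or.inr ⟨c2, c3⟩))
      · -- `(a b)^2`, `(a t)^2` central: `d = a`
        left
        unfold NCen at c1 c3
        push Not at c1 c3
        have h3 := degen (t₁ := b) (t₂ := t) (d := a) (eps := eps) hb ht ha eb et ea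
          (by rw [← hgen]; congr 1; ext z; simp only [Set.mem_insert_iff, Set.mem_singleton_iff]; tauto)
          (flip a b ia ib c1) (flip a t ia it c3)
        refine mono ?_ h3
        rintro z (rfl | rfl | hz)
        · exact Or.inr (Or.inr rfl)
        · exact Or.inr (Or.inl rfl)
        · exact Or.inl hz
    · left
      unfold NCen at c1 c2
      push Not at c1 c2
      exact degen ha ht hb ea et eb hgen c1 c2

end degen

/-- The output for `SQD.Tri`. -/
theorem lst_or_two_tri {G : Type u} [Group G] [Finite G] {N C : Subgroup G} {eps : G →* ℤˣ} {k P : ℕ} {a t b : G}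
    {c₁ : ℕ} (h : SQD.Tri N C eps k P a t b c₁) :
    Lst ({a, t, b} : Set G) ∨
      (NCen eps ((a * b) * (a * b)) ∧ NCen eps ((t * b) * (t * b))) ∨
      (NCen eps ((a * b) * (a * b)) ∧ NCen eps ((a * t) * (a * t))) ∨
      (NCen eps ((t * b) * (t * b)) ∧ NCen eps ((a * t) * (a * t))) :=
  lst_or_two h.aa h.tt h.bb h.ea h.et h.eb h.gen

end Pool.Agent.Lib.MP_688fd0_co.SQ5.H59
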