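import Pool.Agent.Lib.MP_688fd0_co.SQ5.H69.Peel

/-!
PEEL, general form. `A` is symmetric, generates `G`, `eps = -1` on `A`; `H` has a listing sequence with letters in `A` and
contains an element outside of the kernel `Γ` of `eps`; `K = H ∩ Γ` is normalised by `Γ` and `Γ / K` is abelian. Then `A` has
a listing sequence: the exits `v E * a` of the cosets of `H` generate `Γ / K`, and a finite abelian group has a directed
path through all elements for every set of generators.
-/

set_option autoImplicit false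

namespace Pool.Agent.Lib.MP_688fd0_co.SQ5.H59

open Pool.Agent.Lib.MP_688fd0_co.OSF Pool.Agent.Lib.MP_688fd0_co.NC Pool.Agent.Lib.MP_688fd0_co.SQ5

universe u

theorem mono {G : Type u} [Group G] {A A' : Set G} (h : A ⊆ A') (hA : Lst A) : Lst A' := by
  obtain ⟨a, ha, hi⟩ := hA
  exact ⟨a, fun i => h (ha i), hi⟩

/-- A sequence from a path that begins in `1`. -/
theorem toSeq {G : Type u} [Group G] {A : Set G} {H : Subgroup G} {b : G} {D : Set G} (h : Pt A D 1 b)
    (hD : ∀ g, g ∈ D ↔ g ∈ H) : ∃ E v, Seq A H E v := by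
  obtain ⟨n, v, h0, he, hi, hD'⟩ := h.seq
  exact ⟨n, v, fun i hi' => (hD _).1 ((hD' _).2 ⟨i, hi', rfl⟩), hi, fun g hg => (hD' g).1 ((hD g).2 hg), he, h0⟩

section abelian

variable {Z : Type u} [CommGroup Z] [Finite Z] {X : Set Z} {H : Subgroup Z} {E : ℕ} {v : ℕ → Z}

/-- One more generator. -/
theorem seq_insert (S : Seq X H E v) {g : Z} (hg : g ∈ X) :
    ∃ E' v', Seq X (H ⊔ Subgroup.zpowers g) E' v' := by
  classical
  set t := v E * g with ht
  have hb : (v E)⁻¹ * t ∈ X := by rw [ht, inv_mul_cancel_left]; exact hg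
  have hex : ∃ d, 0 < d ∧ t ^ d ∈ H := ⟨orderOf t, orderOf_pos t, by rw [pow_orderOf_eq_one]; exact H.one_mem⟩
  set d := Nat.find hex with hd
  obtain ⟨hd0, hdH⟩ := Nat.find_spec hex
  rw [← hd] at hd0 hdH
  have hmin : ∀ i, 0 < i → i ≤ d - 1 → t ^ i ∉ H := fun i h1 h2 h3 => by
    have := Nat.find_min hex (m := i) (by omega)
    exact this ⟨h1, h3⟩
  have h := chain S hb 1 (d - 1) hmin
  have hvH : v E ∈ H := S.mem E le_rfl
  have hH : H ≤ H ⊔ Subgroup.zpowers g := le_sup_left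
  have hgm : g ∈ H ⊔ Subgroup.zpowers g := (le_sup_right : Subgroup.zpowers g ≤ _) (Subgroup.mem_zpowers g)
  refine toSeq h fun y => ?_
  constructor
  · rintro ⟨i, -, h1⟩
    have h2 : t ^ i ∈ H ⊔ Subgroup.zpowers g := Subgroup.pow_mem _ (mul_mem (hH hvH) hgm) i
    have h3 := mul_mem h2 (hH h1)
    rwa [one_mul, mul_inv_cancel_left] at h3
  · intro hy
    rw [Subgroup.mem_sup] at hy
    obtain ⟨h', hh', z, hz, rfl⟩ := hy
    rw [← mem_powers_iff_mem_zpowers, Submonoid.mem_powers_iff] at hz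
    obtain ⟨i, rfl⟩ := hz
    refine ⟨i % d, by have := Nat.mod_lt i hd0; omega, ?_⟩
    have h1 : t ^ i = t ^ (i % d) * (t ^ d) ^ (i / d) := by
      rw [← pow_mul, ← pow_add, Nat.mod_add_div]
    have h2 : g ^ i = ((v E) ^ i)⁻¹ * t ^ i := by rw [ht, mul_pow, inv_mul_cancel_left]
    rw [h2, h1]
    have h3 : (1 * t ^ (i % d))⁻¹ * (h' * (((v E) ^ i)⁻¹ * (t ^ (i % d) * (t ^ d) ^ (i / d)))) =
        h' * ((v E) ^ i)⁻¹ * (t ^ d) ^ (i / d) := by
      rw [one_mul, inv_mul_eq_iff_eq_mul]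
      ac_rfl
    rw [h3]
    exact mul_mem (mul_mem hh' (inv_mem (pow_mem hvH i))) (pow_mem hdH _)

/-- A finite abelian group has a directed path through all elements of the subgroup generated by `X`. -/
theorem seq_abelian (X : Set Z) : ∃ E v, Seq X (Subgroup.closure X) E v := by
  classical
  have key : ∀ Y : Finset Z, (Y : Set Z) ⊆ X → ∃ E v, Seq X (Subgroup.closure (Y : Set Z)) E v := by
    intro Y
    induction Y using Finset.induction_on with
    | empty =>
      intro _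
      refine ⟨0, fun _ => 1, ?_, ?_, ?_, ?_, rfl⟩
      · intro i _; exact Subgroup.one_mem _
      · intro i hi j hj _; omega
      · intro g hg
        rw [Finset.coe_empty, Subgroup.closure_empty, Subgroup.mem_bot] at hg
        exact ⟨0, le_rfl, hg.symm⟩
      · intro i hi; omega
    | insert g Y _ ih =>
      intro hY
      rw [Finset.coe_insert] at hY ⊢
      obtain ⟨E, v, S⟩ := ih fun y hy => hY (Set.mem_insert_of_mem _ hy)
      obtain ⟨E', v', S'⟩ := seq_insert S (hY (Set.mem_insert g _))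
      refine ⟨E', v', ?_⟩
      rwa [Set.insert_eq, Subgroup.closure_union, ← Subgroup.zpowers_eq_closure, sup_comm]
  obtain ⟨E, v, S⟩ := key (Set.toFinite X).toFinset (by simp)
  rw [Set.Finite.coe_toFinset] at S
  exact ⟨E, v, S⟩

end abelian

section main

variable {G : Type u} [Group G] {A : Set G} {H : Subgroup G} {E : ℕ} {v : ℕ → G} {eps : G →* ℤˣ}

theorem seq_card (S : Seq A H E v) : E + 1 = Nat.card H := by
  have hb : Function.Bijective (fun i : Fin (E + 1) => (⟨v i, S.mem i (by omega)⟩ : H)) := by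
    constructor
    · intro i j hij
      exact Fin.ext (S.inj i (by omega) j (by omega) (congrArg Subtype.val hij))
    · rintro ⟨g, hg⟩
      obtain ⟨i, hi, rfl⟩ := S.sur g hg
      exact ⟨⟨i, by omega⟩, rfl⟩
  rw [← Nat.card_congr (Equiv.ofBijective _ hb)]
  simp

theorem list_coset (S : Seq A H E v) (x : G) : Pt A {g : G | x⁻¹ * g ∈ H} x (x * v E) := by
  have h := seg_up S x 0 E (Nat.zero_le _) le_rfl
  rwa [S.zero, mul_one, im_coset S] at h

/-- PEEL, general form. -/
theorem peel_ab [Finite G] (hsym : ∀ x ∈ A, x⁻¹ ∈ A) (hgen : Subgroup.closure A = ⊤) (hA : ∀ a ∈ A, eps a = -1)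
    (S : Seq A H E v) {c : G} (hc : c ∈ H) (hec : eps c = -1)
    (hn : ∀ x, eps x = 1 → ∀ h ∈ H, eps h = 1 → x * h * x⁻¹ ∈ H)
    (hab : ∀ x y, eps x = 1 → eps y = 1 → (y * x)⁻¹ * (x * y) ∈ H) : Lst A := by
  classical
  have hAne : A.Nonempty := by
    by_contra hne
    rw [Set.not_nonempty_iff_eq_empty] at hne
    rw [hne, Subgroup.closure_empty] at hgen
    have h1 : c ∈ (⊥ : Subgroup G) := by rw [hgen]; trivial
    rw [Subgroup.mem_bot] at h1
    rw [h1, map_one] at hec
    exact absurd hec (by decide)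
  have hvE : eps (v E) = -1 := eps_end hA S (seq_card S) hc hec
  have hvH : v E ∈ H := S.mem E le_rfl
  let Γ : Subgroup G := eps.ker
  let K : Subgroup Γ := H.subgroupOf Γ
  have hKn : K.Normal := ⟨fun h hh x => by
    have h1 : eps (x : G) = 1 := x.2
    have h2 : eps (h : G) = 1 := h.2
    exact Subgroup.mem_subgroupOf.2 (hn x h1 h (Subgroup.mem_subgroupOf.1 hh) h2)⟩
  have hcomm : ∀ x y : Γ ⧸ K, x * y = y * x := by
    intro x y
    induction x using QuotientGroup.induction_on with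
    | H x =>
      induction y using QuotientGroup.induction_on with
      | H y =>
        rw [← QuotientGroup.mk_mul, ← QuotientGroup.mk_mul, eq_comm, QuotientGroup.eq]
        exact Subgroup.mem_subgroupOf.2 (hab x y x.2 y.2)
  letI : CommGroup (Γ ⧸ K) := { (inferInstance : Group (Γ ⧸ K)) with mul_comm := hcomm }
  have mk_eq : ∀ {x y : Γ}, ((x : Γ ⧸ K) = (y : Γ ⧸ K)) ↔ (x : G)⁻¹ * (y : G) ∈ H := by
    intro x y
    rw [QuotientGroup.eq]
    exact Subgroup.mem_subgroupOf
  -- the exits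
  have hexit : ∀ a ∈ A, v E * a ∈ Γ := by
    intro a ha
    have h1 : eps (v E * a) = 1 := by rw [map_mul, hvE, hA a ha]; decide
    exact h1
  let X : Set (Γ ⧸ K) := {z | ∃ a, ∃ ha : a ∈ A, z = ((⟨v E * a, hexit a ha⟩ : Γ) : Γ ⧸ K)}
  obtain ⟨n, w, SZ⟩ := seq_abelian X
  -- the exits generate
  let Δ : Subgroup G := ((Subgroup.closure X).comap (QuotientGroup.mk' K)).map Γ.subtype
  have memΔ : ∀ x : G, x ∈ Δ ↔ ∃ h : x ∈ Γ, ((⟨x, h⟩ : Γ) : Γ ⧸ K) ∈ Subgroup.closure X := by
    intro x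
    constructor
    · rintro ⟨y, hy, rfl⟩
      exact ⟨y.2, hy⟩
    · rintro ⟨h, hx⟩
      exact ⟨⟨x, h⟩, hx, rfl⟩
  have hΔH : ∀ h ∈ H, eps h = 1 → h ∈ Δ := by
    intro h hh he
    refine (memΔ h).2 ⟨he, ?_⟩
    have h1 : ((⟨h, he⟩ : Γ) : Γ ⧸ K) = ((1 : Γ) : Γ ⧸ K) := by
      rw [mk_eq]
      show h⁻¹ * ((1 : Γ) : G) ∈ H
      rw [Subgroup.coe_one, mul_one]
      exact H.inv_mem hh
    rw [h1]
    exact Subgroup.one_mem _
  have hΔA : ∀ a ∈ A, v E * a ∈ Δ := fun a ha =>
    (memΔ _).2 ⟨hexit a ha, Subgroup.subset_closure ⟨a, ha, rfl⟩⟩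
  have hcinv : eps c⁻¹ = -1 := by rw [map_inv, hec]; decide
  have hΔ1 : ∀ a ∈ A, c⁻¹ * a ∈ Δ := by
    intro a ha
    have h1 : v E * c ∈ Δ := hΔH _ (H.mul_mem hvH hc) (by rw [map_mul, hvE, hec]; decide)
    have h2 := Δ.mul_mem (Δ.inv_mem h1) (hΔA a ha)
    have e : (v E * c)⁻¹ * (v E * a) = c⁻¹ * a := by group
    rwa [e] at h2
  have hΔ2 : ∀ a ∈ A, a * c ∈ Δ := by
    intro a ha
    have h2 := Δ.inv_mem (hΔ1 _ (hsym a ha))
    have e : (c⁻¹ * a⁻¹)⁻¹ = a * c := by group
    rwa [e] at h2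
  have hT : ∀ y : G, (eps y = 1 → y ∈ Δ) ∧ (eps y = -1 → y * c ∈ Δ) := by
    have hstep : ∀ y a : G, a ∈ A → ((eps y = 1 → y ∈ Δ) ∧ (eps y = -1 → y * c ∈ Δ)) →
        ((eps (y * a) = 1 → y * a ∈ Δ) ∧ (eps (y * a) = -1 → y * a * c ∈ Δ)) := by
      intro y a ha h
      have e1 : eps (y * a) = - eps y := by rw [map_mul, hA a ha, mul_neg, mul_one]
      constructor
      · intro he
        rw [e1] at he
        have h1 := Δ.mul_mem (h.2 (neg_eq_iff_eq_neg.1 he)) (hΔ1 a ha)
        have e : y * c * (c⁻¹ * a) = y * a := by group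
        rwa [e] at h1
      · intro he
        rw [e1] at he
        have h1 := Δ.mul_mem (h.1 (neg_injective he)) (hΔ2 a ha)
        rwa [← mul_assoc] at h1
    intro y
    have hy : y ∈ Subgroup.closure A := by rw [hgen]; trivial
    induction hy using Subgroup.closure_induction_right with
    | one =>
      refine ⟨fun _ => Δ.one_mem, fun h => ?_⟩
      rw [map_one] at h
      exact absurd h (by decide)
    | mul_right y _ a ha ih => exact hstep y a ha ih
    | mul_inv_cancel y _ a ha ih => exact hstep y a⁻¹ (hsym a ha) ih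
  have htop : ∀ z : Γ ⧸ K, z ∈ Subgroup.closure X := by
    intro z
    induction z using QuotientGroup.induction_on with
    | H x =>
      obtain ⟨h, hx⟩ := (memΔ x).1 ((hT x).1 x.2)
      exact hx
  -- the cosets
  let C : Γ ⧸ K → Set G := fun z => {g | ∃ x : Γ, (x : Γ ⧸ K) = z ∧ (x : G)⁻¹ * g ∈ H}
  have hCx : ∀ x : Γ, C (x : Γ ⧸ K) = {g : G | (x : G)⁻¹ * g ∈ H} := by
    intro x
    ext g
    constructor
    · rintro ⟨x', hx', hg⟩
      have h1 := H.mul_mem (mk_eq.1 hx'.symm) hg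
      show (x : G)⁻¹ * g ∈ H
      rwa [mul_assoc, mul_inv_cancel_left] at h1
    · intro hg
      exact ⟨x, rfl, hg⟩
  have hCd : ∀ z z' g, g ∈ C z → g ∈ C z' → z = z' := by
    rintro z z' g ⟨x, rfl, hx⟩ ⟨x', rfl, hx'⟩
    rw [mk_eq]
    have h1 := H.mul_mem hx (H.inv_mem hx')
    have e : (x : G)⁻¹ * g * ((x' : G)⁻¹ * g)⁻¹ = (x : G)⁻¹ * x' := by group
    rwa [e] at h1
  have hchain : ∀ l ≤ n, ∃ x : Γ, (x : Γ ⧸ K) = w l ∧
      Pt A {g : G | ∃ k ≤ l, g ∈ C (w k)} 1 ((x : G) * v E) := by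
    intro l
    induction l with
    | zero =>
      intro _
      refine ⟨1, by rw [SZ.zero]; rfl, ?_⟩
      have h := list_coset S (1 : G)
      refine h.congr ?_
      have h1 : C (w 0) = {g : G | ((1 : Γ) : G)⁻¹ * g ∈ H} := by
        rw [← hCx, SZ.zero]; rfl
      ext g
      constructor
      · intro hg
        exact ⟨0, le_rfl, by rw [h1]; exact hg⟩
      · rintro ⟨k, hk, hg⟩
        obtain rfl : k = 0 := by omega
        rw [h1] at hg
        exact hg
    | succ l ih =>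
      intro hl
      obtain ⟨x, hx, hp⟩ := ih (by omega)
      obtain ⟨a, ha, hz⟩ := SZ.edge l (by omega)
      have hw : w (l + 1) = ((x * ⟨v E * a, hexit a ha⟩ : Γ) : Γ ⧸ K) := by
        rw [QuotientGroup.mk_mul, hx, ← hz, mul_inv_cancel_left]
      refine ⟨x * ⟨v E * a, hexit a ha⟩, hw.symm, ?_⟩
      have h := list_coset S ((x * ⟨v E * a, hexit a ha⟩ : Γ) : G)
      rw [← hCx, ← hw] at h
      refine (hp.append h ?_ ?_).congr ?_
      · rw [Set.disjoint_left]
        rintro g ⟨k, hk, h1⟩ h2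
        have h3 := SZ.inj k (by omega) (l + 1) hl (hCd _ _ g h1 h2)
        omega
      · have e : ((x : G) * v E)⁻¹ * ((x * ⟨v E * a, hexit a ha⟩ : Γ) : G) = a := by
          rw [Subgroup.coe_mul]
          group
        rw [e]
        exact ha
      · ext g
        constructor
        · rintro (⟨k, hk, h1⟩ | h1)
          · exact ⟨k, by omega, h1⟩
          · exact ⟨l + 1, le_rfl, h1⟩
        · rintro ⟨k, hk, h1⟩
          rcases Nat.lt_or_ge k (l + 1) with h2 | h2
          · exact Or.inl ⟨k, by omega, h1⟩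
          · obtain rfl : k = l + 1 := by omega
            exact Or.inr h1
  obtain ⟨x, -, hp⟩ := hchain n le_rfl
  refine (hp.congr ?_).lst hAne
  ext g
  simp only [Set.mem_univ, iff_true]
  show ∃ k ≤ n, g ∈ C (w k)
  rcases Int.units_eq_one_or (eps g) with he | he
  · obtain ⟨k, hk, h1⟩ := SZ.sur _ (htop ((⟨g, he⟩ : Γ) : Γ ⧸ K))
    refine ⟨k, hk, ?_⟩
    rw [h1, hCx]
    show g⁻¹ * g ∈ H
    rw [inv_mul_cancel]
    exact H.one_mem
  · have he' : g * c ∈ Γ := by
      have h1 : eps (g * c) = 1 := by rw [map_mul, he, hec]; decide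
      exact h1
    obtain ⟨k, hk, h1⟩ := SZ.sur _ (htop ((⟨g * c, he'⟩ : Γ) : Γ ⧸ K))
    refine ⟨k, hk, ?_⟩
    rw [h1, hCx]
    show (g * c)⁻¹ * g ∈ H
    have e : (g * c)⁻¹ * g = c⁻¹ := by group
    rw [e]
    exact H.inv_mem hc

/-- The version with `A' ⊆ A` and `H = ⟨A'⟩`. -/
theorem peel_sub [Finite G] (hsym : ∀ x ∈ A, x⁻¹ ∈ A) (hgen : Subgroup.closure A = ⊤) (hA : ∀ a ∈ A, eps a = -1)
    {A' : Set G} (hA' : A' ⊆ A) (hl : Lst {x : Subgroup.closure A' | (x : G) ∈ A'}) {c : G} (hc : c ∈ A')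
    (hn : ∀ x, eps x = 1 → ∀ h ∈ Subgroup.closure A', eps h = 1 → x * h * x⁻¹ ∈ Subgroup.closure A')
    (hab : ∀ x y, eps x = 1 → eps y = 1 → (y * x)⁻¹ * (x * y) ∈ Subgroup.closure A') : Lst A := by
  obtain ⟨v, S'⟩ := seq_of_lst hl
  have S : Seq A (Subgroup.closure A') (Nat.card (Subgroup.closure A') - 1) v :=
    ⟨S'.mem, S'.inj, S'.sur, fun i hi => hA' (S'.edge i hi), S'.zero⟩
  exact peel_ab hsym hgen hA S (Subgroup.subset_closure hc) (hA c (hA' hc)) hn hab

/-- The kernel of `eps` is abelian. -/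
theorem lst_abelian [Finite G] (hsym : ∀ x ∈ A, x⁻¹ ∈ A) (hgen : Subgroup.closure A = ⊤) (hA : ∀ a ∈ A, eps a = -1)
    (hne : A.Nonempty) (hab : ∀ x y, eps x = 1 → eps y = 1 → x * y = y * x) : Lst A := by
  obtain ⟨c, hc⟩ := hne
  have S : Seq A (Subgroup.zpowers c) (orderOf c - 1) (fun i => c ^ i) := by
    have hpos : 0 < orderOf c := orderOf_pos c
    refine ⟨fun i _ => ⟨i, by simp⟩, ?_, ?_, ?_, pow_zero c⟩
    · intro i hi j hj hij
      exact pow_injOn_Iio_orderOf (Set.mem_Iio.2 (by omega)) (Set.mem_Iio.2 (by omega)) hij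
    · intro g hg
      rw [← mem_powers_iff_mem_zpowers, Submonoid.mem_powers_iff] at hg
      obtain ⟨i, rfl⟩ := hg
      refine ⟨i % orderOf c, by have := Nat.mod_lt i hpos; omega, ?_⟩
      exact pow_mod_orderOf c i
    · intro i _
      show (c ^ i)⁻¹ * c ^ (i + 1) ∈ A
      rw [pow_succ, inv_mul_cancel_left]
      exact hc
  refine peel_ab hsym hgen hA S (Subgroup.mem_zpowers c) (hA c hc) ?_ ?_
  · intro x hx h hh he
    rw [hab x h hx he, mul_inv_cancel_right]
    exact hh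
  · intro x y hx hy
    rw [hab x y hx hy, inv_mul_cancel]
    exact Subgroup.one_mem _

/-- The same with `1 ∈ A` allowed. -/
theorem lst_abelian' [Finite G] (hsym : ∀ x ∈ A, x⁻¹ ∈ A) (hgen : Subgroup.closure A = ⊤)
    (hA : ∀ a ∈ A, a ≠ 1 → eps a = -1) (hne : A.Nonempty)
    (hab : ∀ x y, eps x = 1 → eps y = 1 → x * y = y * x) : Lst A := by
  by_cases h1 : (A \ {1}).Nonempty
  · refine mono (Set.sdiff_subset : A \ {1} ⊆ A) (lst_abelian ?_ ?_ (fun a ha => hA a ha.1 ha.2) h1 hab)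
    · intro x hx
      exact ⟨hsym x hx.1, fun h => hx.2 (inv_eq_one.1 h)⟩
    · rw [← hgen]
      refine le_antisymm (Subgroup.closure_mono Set.sdiff_subset) ((Subgroup.closure_le _).2 fun x hx => ?_)
      by_cases h : x = 1
      · rw [h]; exact Subgroup.one_mem _
      · exact Subgroup.subset_closure ⟨hx, h⟩
  · have hA1 : A ⊆ {1} := by
      intro x hx
      by_contra h
      exact h1 ⟨x, hx, h⟩
    have htriv : ∀ x : G, x = 1 := by
      intro x
      have h2 : x ∈ Subgroup.closure A := by rw [hgen]; trivial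
      have h3 := Subgroup.closure_mono hA1 h2
      rwa [Subgroup.closure_singleton_one, Subgroup.mem_bot] at h3
    have hss : Subsingleton G := ⟨fun x y => by rw [htriv x, htriv y]⟩
    obtain ⟨a, ha⟩ := hne
    refine ⟨fun _ => a, fun _ => ha, fun i j _ => ?_⟩
    have h4 : Nat.card G = 1 := Nat.card_unique
    have := i.2
    have := j.2
    exact Fin.ext (by omega)

/-- PEEL as in the order of work: one letter `b`, with `b * b` in `H = ⟨A'⟩`, `A ⊆ A' ∪ {b, b⁻¹}`, and `H ∩ ker eps`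
normal in `G`. -/
theorem peel_letter [Finite G] (hsym : ∀ x ∈ A, x⁻¹ ∈ A) (hgen : Subgroup.closure A = ⊤) (hA : ∀ a ∈ A, eps a = -1)
    {A' : Set G} (hA' : A' ⊆ A) {b : G} (hb : ∀ a ∈ A, a ∈ A' ∨ a = b ∨ a = b⁻¹)
    (hl : Lst {x : Subgroup.closure A' | (x : G) ∈ A'}) (hne : A'.Nonempty)
    (hn : (Subgroup.closure A' ⊓ eps.ker).Normal) (hbb : b * b ∈ Subgroup.closure A') : Lst A := by
  obtain ⟨c, hc⟩ := hne
  set H := Subgroup.closure A' with hH
  have hcH : c ∈ H := Subgroup.subset_closure hc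
  have hec : eps c = -1 := hA c (hA' hc)
  have hn' : ∀ x : G, ∀ h ∈ H, eps h = 1 → x * h * x⁻¹ ∈ H := fun x h hh he =>
    (hn.conj_mem h ⟨hh, he⟩ x).1
  refine peel_sub hsym hgen hA hA' hl hc (fun x _ => hn' x) ?_
  by_cases hbA : b ∈ A
  swap
  · -- then `A = A'`
    intro x y _ _
    have h1 : A ⊆ A' := by
      intro a ha
      rcases hb a ha with h | h | h
      · exact h
      · exact absurd (h ▸ ha) hbA
      · exact absurd (by have := hsym a ha; rwa [h, inv_inv] at this) hbA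
    have h2 : (y * x)⁻¹ * (x * y) ∈ Subgroup.closure A := by rw [hgen]; trivial
    exact Subgroup.closure_mono h1 h2
  have heb : eps b = -1 := hA b hbA
  -- every element of the kernel is a power of `t` modulo `H`
  let K : Subgroup G := H ⊓ eps.ker
  have hKn : K.Normal := hn
  set t := c⁻¹ * b with ht
  have het : eps t = 1 := by rw [ht, map_mul, map_inv, hec, heb]; decide
  have hcomm : ∀ x : G, x ∈ eps.ker → x ∈ K ⊔ Subgroup.zpowers t := by
    have hK : ∀ x ∈ H, eps x = 1 → x ∈ K ⊔ Subgroup.zpowers t := fun x hx he =>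
      (le_sup_left : K ≤ K ⊔ Subgroup.zpowers t) ⟨hx, he⟩
    have htm : t ∈ K ⊔ Subgroup.zpowers t :=
      (le_sup_right : Subgroup.zpowers t ≤ K ⊔ Subgroup.zpowers t) (Subgroup.mem_zpowers t)
    -- `c⁻¹ a` and `a c`
    have h1 : ∀ a ∈ A, c⁻¹ * a ∈ K ⊔ Subgroup.zpowers t := by
      intro a ha
      rcases hb a ha with h | h | h
      · exact hK _ (H.mul_mem (H.inv_mem hcH) (Subgroup.subset_closure h))
          (by rw [map_mul, map_inv, hec, hA a ha]; decide)
      · rw [h]; exact htm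
      · -- `c⁻¹ b⁻¹ = t (b b)⁻¹ (conjugate)`
        have h2 : (b * b)⁻¹ ∈ K ⊔ Subgroup.zpowers t := inv_mem (hK _ hbb (by rw [map_mul, heb]; decide))
        have h3 := mul_mem htm h2
        have e : t * (b * b)⁻¹ = c⁻¹ * a := by rw [ht, h]; group
        rwa [e] at h3
    have h2 : ∀ a ∈ A, a * c ∈ K ⊔ Subgroup.zpowers t := by
      intro a ha
      have h3 := inv_mem (h1 _ (hsym a ha))
      have e : (c⁻¹ * a⁻¹)⁻¹ = a * c := by group
      rwa [e] at h3
    have hT : ∀ y : G, (eps y = 1 → y ∈ K ⊔ Subgroup.zpowers t) ∧ (eps y = -1 → y * c ∈ K ⊔ Subgroup.zpowers t) := by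
      have hstep : ∀ y a : G, a ∈ A →
          ((eps y = 1 → y ∈ K ⊔ Subgroup.zpowers t) ∧ (eps y = -1 → y * c ∈ K ⊔ Subgroup.zpowers t)) →
          ((eps (y * a) = 1 → y * a ∈ K ⊔ Subgroup.zpowers t) ∧
            (eps (y * a) = -1 → y * a * c ∈ K ⊔ Subgroup.zpowers t)) := by
        intro y a ha h
        have e1 : eps (y * a) = - eps y := by rw [map_mul, hA a ha, mul_neg, mul_one]
        constructor
        · intro he
          rw [e1] at he
          have h3 := mul_mem (h.2 (neg_eq_iff_eq_neg.1 he)) (h1 a ha)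
          have e : y * c * (c⁻¹ * a) = y * a := by group
          rwa [e] at h3
        · intro he
          rw [e1] at he
          have h3 := mul_mem (h.1 (neg_injective he)) (h2 a ha)
          rwa [← mul_assoc] at h3
      intro y
      have hy : y ∈ Subgroup.closure A := by rw [hgen]; trivial
      induction hy using Subgroup.closure_induction_right with
      | one =>
        refine ⟨fun _ => one_mem _, fun h => ?_⟩
        rw [map_one] at h
        exact absurd h (by decide)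
      | mul_right y _ a ha ih => exact hstep y a ha ih
      | mul_inv_cancel y _ a ha ih => exact hstep y a⁻¹ (hsym a ha) ih
    exact fun x hx => (hT x).1 hx
  intro x y hx hy
  have hq : ∀ x : G, x ∈ K ⊔ Subgroup.zpowers t → ∃ i : ℤ, (QuotientGroup.mk' K x) = (QuotientGroup.mk' K t) ^ i := by
    intro x hx
    rw [Subgroup.mem_sup_of_normal_left] at hx
    obtain ⟨k, hk, z, ⟨i, rfl⟩, rfl⟩ := hx
    refine ⟨i, ?_⟩
    have h2 : QuotientGroup.mk' K k = 1 := (QuotientGroup.eq_one_iff k).2 hk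
    show QuotientGroup.mk' K (k * t ^ i) = _
    rw [map_mul, h2, one_mul, map_zpow]
  obtain ⟨i, hi⟩ := hq x (hcomm x hx)
  obtain ⟨j, hj⟩ := hq y (hcomm y hy)
  have h3 : QuotientGroup.mk' K ((y * x)⁻¹ * (x * y)) = 1 := by
    rw [map_mul, map_inv, map_mul, map_mul, hi, hj, ← zpow_add, ← zpow_add, add_comm, inv_mul_cancel]
  exact ((QuotientGroup.eq_one_iff _).1 h3).1

end main

end Pool.Agent.Lib.MP_688fd0_co.SQ5.H59
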